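import Pool.Agent.RK.Defs

set_option autoImplicit false
open Matrix


namespace Pool.Agent.RK.Lp
open Pool.Agent.RK

open Matrix

/-! ## TARGET (prove this) -/

theorem lp_min_mat {R : Type} [Ring R] [StarRing R] {m n k : Type} [Fintype m] [Fintype n]
    [Fintype k] {A : Matrix m n R} {p : Matrix m m R} (hp : IsLP A p) (X : Matrix k m R)
    (h : X * A = 0) : X * p = 0 := by
  ext i j
  have h1 : Matrix.vecMul (X i) A = 0 := by
    rw [← Matrix.mul_apply_eq_vecMul, h]
    rfl
  have h2 := hp.min (X i) h1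
  rw [← Matrix.mul_apply_eq_vecMul] at h2
  exact congrFun h2 j

theorem lp_absorb {R : Type} [Ring R] [StarRing R] {m n : Type} [Fintype m] [Fintype n]
    (A : Matrix m n R) (p q : Matrix m m R) (hp : IsLP A p) (hq : IsLP A q) : p * q = q := by
  classical
  have h1 : (1 - p) * A = 0 := by rw [Matrix.sub_mul, Matrix.one_mul, hp.mul, sub_self]
  have h2 := lp_min_mat hq (1 - p) h1
  rw [Matrix.sub_mul, Matrix.one_mul, sub_eq_zero] at h2
  exact h2.symm

theorem lp_unique {R : Type} [Ring R] [StarRing R] {m n : Type} [Fintype m] [Fintype n]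
    (A : Matrix m n R) (p q : Matrix m m R) (hp : IsLP A p) (hq : IsLP A q) : p = q := by
  have h1 := lp_absorb A p q hp hq
  have h2 := lp_absorb A q p hq hp
  have h3 := congrArg Matrix.conjTranspose h1
  rw [Matrix.conjTranspose_mul, hp.star, hq.star] at h3
  rw [← h2, h3]

theorem lp_sub {R : Type} [Ring R] [StarRing R] {m n m' n' : Type}
    [Fintype m] [Fintype n] [Fintype m'] [Fintype n'] {A : Matrix m n R} {p : Matrix m m R}
    (hp : IsLP A p) (e : m' ≃ m) (f : n' ≃ n) : IsLP (A.submatrix e f) (p.submatrix e e) where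
  idem := by rw [Matrix.submatrix_mul_equiv, hp.idem]
  star := by rw [Matrix.conjTranspose_submatrix, hp.star]
  mul := by rw [Matrix.submatrix_mul_equiv, hp.mul]
  min := by
    intro x hx
    rw [Matrix.submatrix_vecMul_equiv] at hx ⊢
    have h1 : Matrix.vecMul (x ∘ e.symm) A = 0 := by
      funext j
      have h2 := congrFun hx (f.symm j)
      rw [Function.comp_apply, Equiv.apply_symm_apply] at h2
      exact h2
    rw [hp.min _ h1]
    rfl

theorem lp_tr_sub {R : Type} [Ring R] (τ : R →+ ℝ) {m m' : Type} [Fintype m] [Fintype m']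
    (p : Matrix m m R) (e : m' ≃ m) : Tr τ (p.submatrix e e) = Tr τ p :=
  Equiv.sum_comp e (fun i => τ (p i i))

theorem lp_exists {R : Type} [Ring R] [StarRing R] {τ : R →+ ℝ} (h : VN R τ) {m n : Type}
    [Fintype m] [Fintype n] (A : Matrix m n R) : ∃ p, IsLP A p := by
  obtain ⟨p, hp⟩ := h.lp _ _ (A.submatrix (Fintype.equivFin m).symm (Fintype.equivFin n).symm)
  refine ⟨p.submatrix (Fintype.equivFin m) (Fintype.equivFin m), ?_⟩
  have h1 := lp_sub hp (Fintype.equivFin m) (Fintype.equivFin n)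
  rw [Matrix.submatrix_submatrix, Equiv.symm_comp_self, Equiv.symm_comp_self,
    Matrix.submatrix_id_id] at h1
  exact h1

theorem lp_tr {R : Type} [Ring R] [StarRing R] {τ : R →+ ℝ} (h : VN R τ) {m n : Type}
    [Fintype m] [Fintype n] (A : Matrix m n R) (p : Matrix m m R) (q : Matrix n n R)
    (hp : IsLP A p) (hq : IsLP Aᴴ q) : Tr τ p = Tr τ q := by
  have h1 := lp_sub hp (Fintype.equivFin m).symm (Fintype.equivFin n).symm
  have h2 := lp_sub hq (Fintype.equivFin n).symm (Fintype.equivFin m).symm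
  rw [← Matrix.conjTranspose_submatrix] at h2
  have h3 := h.lp_tr _ _ _ _ _ h1 h2
  rw [lp_tr_sub, lp_tr_sub] at h3
  exact h3

theorem rk_eq {R : Type} [Ring R] [StarRing R] {τ : R →+ ℝ} {m n : Type}
    [Fintype m] [Fintype n] (A : Matrix m n R) (p : Matrix m m R) (hp : IsLP A p) :
    rk τ A = Tr τ p := by
  have hex : ∃ p, IsLP A p := ⟨p, hp⟩
  unfold rk
  rw [dif_pos hex, lp_unique A _ p hex.choose_spec hp]

theorem rk_star {R : Type} [Ring R] [StarRing R] {τ : R →+ ℝ} (h : VN R τ) {m n : Type}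
    [Fintype m] [Fintype n] (A : Matrix m n R) : rk τ Aᴴ = rk τ A := by
  obtain ⟨p, hp⟩ := lp_exists h A
  obtain ⟨q, hq⟩ := lp_exists h Aᴴ
  rw [rk_eq A p hp, rk_eq Aᴴ q hq, lp_tr h A p q hp hq]

theorem rk_reindex {R : Type} [Ring R] [StarRing R] {τ : R →+ ℝ} (h : VN R τ) {m n m' n' : Type}
    [Fintype m] [Fintype n] [Fintype m'] [Fintype n'] (A : Matrix m n R) (e : m' ≃ m)
    (f : n' ≃ n) : rk τ (A.submatrix e f) = rk τ A := by
  obtain ⟨p, hp⟩ := lp_exists h A
  rw [rk_eq A p hp, rk_eq _ _ (lp_sub hp e f), lp_tr_sub]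

end Pool.Agent.RK.Lp
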