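import Pool.Agent.RK.Defs
import Pool.Agent.RK.Tr

set_option autoImplicit false
open Matrix


namespace Pool.Agent.RK.Proj
open Pool.Agent.RK
open Pool.Agent.RK.Tr (tr_comm tr_star)

open Matrix




/-! ## TARGET (prove this) -/

theorem proj_le {R : Type} [Ring R] [StarRing R] {τ : R →+ ℝ} (h : VN R τ) {m : Type}
    [Fintype m] (p q : Matrix m m R) (hp : p * p = p) (hp' : pᴴ = p) (hq : q * q = q)
    (hq' : qᴴ = q) (hpq : q * p = p) : Tr τ p ≤ Tr τ q ∧ (Tr τ p = Tr τ q → p = q) := by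
  have hpq' : p * q = p := by
    have h1 : (q * p)ᴴ = pᴴ := by rw [hpq]
    rw [Matrix.conjTranspose_mul, hq', hp'] at h1
    exact h1
  have hr1 : (q - p)ᴴ = q - p := by rw [Matrix.conjTranspose_sub, hq', hp']
  have hr2 : (q - p)ᴴ * (q - p) = q - p := by
    rw [hr1, sub_mul, mul_sub, mul_sub, hq, hpq, hpq', hp]
    abel
  have htr : Tr τ (q - p) = Tr τ q - Tr τ p := by
    unfold Tr
    simp [Finset.sum_sub_distrib]
  obtain ⟨h0, h1⟩ := tr_star h (q - p)
  rw [hr2, htr] at h0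
  rw [hr2, htr] at h1
  refine ⟨by linarith, fun he => ?_⟩
  have h2 := h1 (by linarith)
  exact (sub_eq_zero.1 h2).symm

end Pool.Agent.RK.Proj
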