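import Pool.Agent.RK.Defs
import Pool.Agent.RK.RkFull

set_option autoImplicit false
open Matrix


namespace Pool.Agent.RK.Nz
open Pool.Agent.RK
open Pool.Agent.RK.RkFull (rk_full_left rk_full_right)

open Matrix




/-! ## TARGET (prove this) -/

theorem nz_iff {R : Type} [Ring R] [StarRing R] {τ : R →+ ℝ} (h : VN R τ) (s : R) :
    Nz s ↔ ∀ x : R, s * x = 0 → x = 0 := by
  have h1 := rk_full_left h (fun _ _ : Unit => s)
  have h2 := rk_full_right h (fun _ _ : Unit => s)
  have h3 : (∀ x : Unit → R, Matrix.vecMul x (fun _ _ : Unit => s) = 0 → x = 0) ↔ Nz s := by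
    constructor
    · intro hx x hxs
      have := hx (fun _ => x) (by
        funext i
        simp [Matrix.vecMul, dotProduct, hxs])
      exact congrFun this ()
    · intro hn x hx
      funext i
      apply hn
      have := congrFun hx ()
      simpa [Matrix.vecMul, dotProduct] using this
  have h4 : (∀ y : Unit → R, Matrix.mulVec (fun _ _ : Unit => s) y = 0 → y = 0) ↔ ∀ x : R, s * x = 0 → x = 0 := by
    constructor
    · intro hx x hxs
      have := hx (fun _ => x) (by
        funext i
        simp [Matrix.mulVec, dotProduct, hxs])
      exact congrFun this ()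
    · intro hn x hx
      funext i
      apply hn
      have := congrFun hx ()
      simpa [Matrix.mulVec, dotProduct] using this
  rw [← h3, ← h4, ← h1, ← h2]

theorem nz_mul {R : Type} [Ring R] (s t : R) (hs : Nz s) (ht : Nz t) : Nz (s * t) := by
  intro x hx
  apply hs
  apply ht
  rw [mul_assoc]
  exact hx

theorem nz_star {R : Type} [Ring R] [StarRing R] {τ : R →+ ℝ} (h : VN R τ) (s : R) (hs : Nz s) :
    Nz (star s) := by
  intro x hx
  have h1 := (nz_iff h s).mp hs (star x) (by
    have := congrArg star hx
    simpa using this)
  simpa using h1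

end Pool.Agent.RK.Nz
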