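import Pool.Agent.RK.Defs2
import Pool.Agent.RK.OreRest
import Pool.Agent.RK.Nz

set_option autoImplicit false
open Matrix
open scoped Classical

namespace Pool.Agent.RK.UN
open Pool.Agent.RK
open Pool.Agent.RK.OreRest (ore_left)
open Pool.Agent.RK.Nz (nz_mul nz_iff)

open Matrix





/-! ## TARGET (prove this) -/

theorem un_add {R' R U : Type} [Ring R'] [StarRing R'] [Ring R] [Ring U] {τ' : R' →+ ℝ}
    (h' : VN R' τ') (j : R' →+* R) (hj : ∀ s, Nz s → Nz (j s)) {ι : R →+* U} (hι : Loc ι)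
    (y z : U) (hy : y ∈ UN j ι) (hz : z ∈ UN j ι) : y + z ∈ UN j ι := by
  obtain ⟨s, x, hs, hsx⟩ := hy
  obtain ⟨t, w, ht, htw⟩ := hz
  obtain ⟨s', b', hs', he⟩ := ore_left h' s t ht
  refine ⟨s' * s, s' * x + b' * w, nz_mul _ _ hs' hs, ?_⟩
  have h1 : ι (j (s' * s)) * y = ι (j (s' * x)) := by
    rw [map_mul, map_mul, mul_assoc, hsx, ← map_mul, ← map_mul]
  have h2 : ι (j (s' * s)) * z = ι (j (b' * w)) := by
    rw [he, map_mul, map_mul, mul_assoc, htw, ← map_mul, ← map_mul]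
  rw [mul_add, h1, h2, map_add, map_add]


theorem un_mul {R' R U : Type} [Ring R'] [StarRing R'] [Ring R] [Ring U] {τ' : R' →+ ℝ}
    (h' : VN R' τ') (j : R' →+* R) (hj : ∀ s, Nz s → Nz (j s)) {ι : R →+* U} (hι : Loc ι)
    (y z : U) (hy : y ∈ UN j ι) (hz : z ∈ UN j ι) : y * z ∈ UN j ι := by
  obtain ⟨s, x, hs, hsx⟩ := hy
  obtain ⟨t, w, ht, htw⟩ := hz
  obtain ⟨t', x', ht', he⟩ := ore_left h' x t ht
  refine ⟨t' * s, x' * w, nz_mul _ _ ht' hs, ?_⟩
  have h1 : ι (j (t' * s)) * y = ι (j (t' * x)) := by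
    rw [map_mul, map_mul, mul_assoc, hsx, ← map_mul, ← map_mul]
  rw [← mul_assoc, h1, he, map_mul, map_mul, mul_assoc, htw, ← map_mul, ← map_mul]


theorem un_inv {R' R U : Type} [Ring R'] [StarRing R'] [Ring R] [Ring U] {τ' : R' →+ ℝ}
    (h' : VN R' τ') (j : R' →+* R) (hinj : Function.Injective j) (hj : ∀ s, Nz s → Nz (j s))
    {ι : R →+* U} (hι : Loc ι) (y z : U) (hy : y ∈ UN j ι) (hyz : y * z = 1) (hzy : z * y = 1) :
    z ∈ UN j ι := by
  obtain ⟨s, x, hs, hsx⟩ := hy
  refine ⟨x, s, ?_, ?_⟩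
  · intro t ht
    have h1 : ι (j t) * ι (j x) = 0 := by
      rw [← map_mul, ← map_mul, ht, map_zero, map_zero]
    have h2 : ι (j (t * s)) = 0 := by
      rw [map_mul, map_mul]
      calc ι (j t) * ι (j s) = ι (j t) * ι (j s) * (y * z) := by rw [hyz, mul_one]
        _ = ι (j t) * (ι (j s) * y) * z := by simp only [mul_assoc]
        _ = 0 := by rw [hsx, h1, zero_mul]
    have h3 : j (t * s) = 0 := hι.inj (by rw [h2, map_zero])
    have h4 : t * s = 0 := hinj (by rw [h3, map_zero])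
    exact hs t h4
  · rw [← hsx, mul_assoc, hyz, mul_one]


theorem un_common {R' R U : Type} [Ring R'] [StarRing R'] [Ring R] [Ring U] {τ' : R' →+ ℝ}
    (h' : VN R' τ') (j : R' →+* R) (hj : ∀ s, Nz s → Nz (j s)) {ι : R →+* U} (hι : Loc ι)
    {n : Type} [Finite n] (y : n → U) (hy : ∀ i, y i ∈ UN j ι) :
    ∃ (s : R') (x : n → R'), Nz s ∧ ∀ i, ι (j s) * y i = ι (j (x i)) := by
  classical
  haveI := Fintype.ofFinite n
  have key : ∀ S : Finset n, ∃ (s : R') (x : n → R'), Nz s ∧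
      ∀ i ∈ S, ι (j s) * y i = ι (j (x i)) := by
    intro S
    induction S using Finset.induction_on with
    | empty =>
      refine ⟨1, fun _ => 0, ?_, ?_⟩
      · intro x hx
        rwa [mul_one] at hx
      · intro i hi
        simp at hi
    | insert a S ha ih =>
      obtain ⟨s, x, hs, hsx⟩ := ih
      obtain ⟨t, w, ht, htw⟩ := hy a
      obtain ⟨s', b', hs', he⟩ := ore_left h' s t ht
      refine ⟨s' * s, fun i => if i = a then b' * w else s' * x i, nz_mul _ _ hs' hs, ?_⟩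
      intro i hi
      by_cases hia : i = a
      · subst hia
        simp only [if_true]
        rw [he, map_mul, map_mul, mul_assoc, htw, ← map_mul, ← map_mul]
      · simp only [if_neg hia]
        have hiS : i ∈ S := by
          rcases Finset.mem_insert.mp hi with h | h
          · exact absurd h hia
          · exact h
        rw [map_mul, map_mul, mul_assoc, hsx i hiS, ← map_mul, ← map_mul]
  obtain ⟨s, x, hs, hsx⟩ := key Finset.univ
  exact ⟨s, x, hs, fun i => hsx i (Finset.mem_univ i)⟩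


end Pool.Agent.RK.UN
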