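import Pool.Agent.RK.Defs2
import Pool.Agent.RK.UN

set_option autoImplicit false
open Matrix
open scoped Classical

namespace Pool.Agent.RK.UnData
open Pool.Agent.RK
open Pool.Agent.RK.UN (un_add un_mul un_inv un_common)

open Matrix






/-! ## TARGET (prove this) -/

/-- The subring `U_N` with common left denominators. -/
theorem un_data {R' R U : Type} [Ring R'] [StarRing R'] [Ring R] [Ring U] {τ' : R' →+ ℝ}
    (h' : VN R' τ') (j : R' →+* R) (hinj : Function.Injective j) (hj : ∀ s, Nz s → Nz (j s))
    {ι : R →+* U} (hι : Loc ι) :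
    ∃ V : Subring U, (V : Set U) = UN j ι ∧ (∀ r : R', ι (j r) ∈ V) ∧
      (∀ y ∈ V, ∀ z : U, y * z = 1 → z * y = 1 → z ∈ V) ∧
      ∀ (m : ℕ) (y : Fin m → U), (∀ i, y i ∈ V) →
        ∃ (s : R') (x : Fin m → R'), Nz s ∧ ∀ i, ι (j s) * y i = ι (j (x i)) := by
  have hone : Nz (1 : R') := fun x hx => by rwa [mul_one] at hx
  have hmap : ∀ r : R', ι (j r) ∈ UN j ι := fun r => ⟨1, r, hone, by rw [map_one, map_one, one_mul]⟩
  refine ⟨{ carrier := UN j ι
            mul_mem' := fun {y z} hy hz => un_mul h' j hj hι y z hy hz
            one_mem' := by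
              have := hmap 1
              rwa [map_one, map_one] at this
            add_mem' := fun {y z} hy hz => un_add h' j hj hι y z hy hz
            zero_mem' := by
              have := hmap 0
              rwa [map_zero, map_zero] at this
            neg_mem' := by
              rintro y ⟨s, x, hs, hsx⟩
              exact ⟨s, -x, hs, by rw [mul_neg, hsx, map_neg, map_neg]⟩ }, rfl, hmap, ?_, ?_⟩
  · intro y hy z hyz hzy
    exact un_inv h' j hinj hj hι y z hy hyz hzy
  · intro m y hy
    exact un_common h' j hj hι y hy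

end Pool.Agent.RK.UnData
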