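import Pool.Agent.RK.Defs
import Pool.Agent.RK.Lp
import Pool.Agent.RK.Tr

set_option autoImplicit false
open Matrix


namespace Pool.Agent.RK.RkIdem
open Pool.Agent.RK
open Pool.Agent.RK.Lp (lp_exists rk_eq)
open Pool.Agent.RK.Tr (tr_comm tr_star)

open Matrix






/-! ## TARGET (prove this) -/

theorem rk_idem {R : Type} [Ring R] [StarRing R] {τ : R →+ ℝ} (h : VN R τ) {m : Type}
    [Fintype m] (e : Matrix m m R) (he : e * e = e) : rk τ e = Tr τ e := by
  classical
  obtain ⟨p, hp⟩ := lp_exists h e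
  rw [rk_eq e p hp]
  have h1 : (1 - e) * p = 0 := by
    ext i j
    rw [Matrix.mul_apply_eq_vecMul]
    have h2 : Matrix.vecMul ((1 - e) i) e = 0 := by
      rw [← Matrix.mul_apply_eq_vecMul, Matrix.sub_mul, Matrix.one_mul, he, sub_self]
      rfl
    rw [hp.min _ h2]
    rfl
  have h3 : e * p = p := by
    rw [Matrix.sub_mul, Matrix.one_mul, sub_eq_zero] at h1
    exact h1.symm
  calc Tr τ p = Tr τ (e * p) := by rw [h3]
    _ = Tr τ (p * e) := tr_comm h e p
    _ = Tr τ e := by rw [hp.mul]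

theorem rk_zero {R : Type} [Ring R] [StarRing R] {τ : R →+ ℝ} (h : VN R τ) {m n : Type}
    [Fintype m] [Fintype n] (A : Matrix m n R) : rk τ A = 0 ↔ A = 0 := by
  constructor
  · intro h0
    obtain ⟨p, hp⟩ := lp_exists h A
    rw [rk_eq A p hp] at h0
    have h1 : pᴴ * p = p := by rw [hp.star, hp.idem]
    have h2 := (tr_star h p).2 (by rw [h1]; exact h0)
    rw [← hp.mul, h2, Matrix.zero_mul]
  · rintro rfl
    rw [rk_eq (0 : Matrix m n R) 0 ⟨by simp, by simp, by simp, fun x _ => by simp⟩]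
    simp [Tr]

end Pool.Agent.RK.RkIdem
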