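import Pool.Agent.RK.Defs2
import Pool.Agent.RK.OreRest
import Pool.Agent.RK.Nz
import Pool.Agent.RK.Lp
import Pool.Agent.RK.RkIdem
import Pool.Agent.RK.RkMul

set_option autoImplicit false
open Matrix
open scoped Classical

namespace Pool.Agent.RK.V3Abs
open Pool.Agent.RK
open Pool.Agent.RK.OreRest (ore_left ore_right)
open Pool.Agent.RK.Nz (nz_iff nz_mul)
open Pool.Agent.RK.Lp (lp_exists rk_eq)
open Pool.Agent.RK.RkIdem (rk_idem)
open Pool.Agent.RK.RkMul (rk_mul_left rk_mul_right rk_nonneg)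

open Matrix












/-! ## TARGET (prove this) -/

theorem cd_one {R' U : Type} [Ring R'] [StarRing R'] [Ring U] {τ' : R' →+ ℝ} (h' : VN R' τ')
    (f : R' →+* U) (hu : ∀ s, Nz s → IsUnit (f s)) (y : U)
    (hy : ∃ s x : R', Nz s ∧ f s * y = f x) : ∃ t z : R', Nz t ∧ y * f t = f z := by
  obtain ⟨s, x, hs, h1⟩ := hy
  obtain ⟨t, z, ht, h2⟩ := ore_right h' x s hs
  refine ⟨t, z, ht, ?_⟩
  apply (hu s hs).mul_left_cancel
  rw [← mul_assoc, h1, ← map_mul, h2, map_mul]

theorem cd_fin {R' U : Type} [Ring R'] [StarRing R'] [Ring U] {τ' : R' →+ ℝ} (h' : VN R' τ')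
    (f : R' →+* U) (hu : ∀ s, Nz s → IsUnit (f s)) {ι : Type} [DecidableEq ι] (y : ι → U)
    (hy : ∀ i, ∃ s x : R', Nz s ∧ f s * y i = f x) (S : Finset ι) :
    ∃ (t : R') (z : ι → R'), Nz t ∧ ∀ i ∈ S, y i * f t = f (z i) := by
  induction S using Finset.induction_on with
  | empty =>
    refine ⟨1, fun _ => 0, ?_, ?_⟩
    · intro x hx
      rwa [mul_one] at hx
    · intro i hi
      exact absurd hi (Finset.notMem_empty i)
  | insert i0 S hi0 ih =>
    obtain ⟨t0, z0, ht0, h0⟩ := ih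
    obtain ⟨t1, z1, ht1, h1⟩ := cd_one h' f hu (y i0) (hy i0)
    obtain ⟨a, c, ha, hac⟩ := ore_right h' t1 t0 ht0
    refine ⟨t1 * a, fun i => if i = i0 then z1 * a else z0 i * c, nz_mul _ _ ht1 ha, ?_⟩
    intro i hi
    beta_reduce
    by_cases hii : i = i0
    · subst hii
      rw [if_pos rfl, map_mul, ← mul_assoc, h1, map_mul]
    · rw [if_neg hii, hac, map_mul, ← mul_assoc, h0 i ((Finset.mem_insert.1 hi).resolve_left hii),
        map_mul]

/-- V3 for matrices with entries in `{f(s)⁻¹ f(x)}`. -/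
theorem v3_abs {R' U : Type} [Ring R'] [StarRing R'] [Ring U] {τ' : R' →+ ℝ} (h' : VN R' τ')
    (f : R' →+* U) (hf : Function.Injective f) (hu : ∀ s, Nz s → IsUnit (f s)) {k b : ℕ}
    (e : Matrix (Fin k) (Fin k) R') (he : e * e = e) (F : Matrix (Fin k) (Fin b) U)
    (hF : ∀ i j, ∃ s x : R', Nz s ∧ f s * F i j = f x)
    (hinj : ∀ w : Fin k → R', Matrix.vecMul w e = w →
      Matrix.vecMul (fun i => f (w i)) F = 0 → w = 0) :
    Tr τ' e ≤ b := by
  classical
  obtain ⟨t, z, ht, hz⟩ := cd_fin h' f hu (fun q : Fin k × Fin b => F q.1 q.2)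
    (fun q => hF q.1 q.2) Finset.univ
  obtain ⟨Z, hZ⟩ : ∃ Z : Matrix (Fin k) (Fin b) R', ∀ i j, F i j * f t = f (Z i j) :=
    ⟨fun i j => z (i, j), fun i j => hz (i, j) (Finset.mem_univ _)⟩
  have hinj2 : ∀ w : Fin k → R', Matrix.vecMul w e = w → Matrix.vecMul w Z = 0 → w = 0 := by
    intro w hw hwZ
    apply hinj w hw
    funext j
    apply (hu t ht).mul_right_cancel
    have h1 := congrFun hwZ j
    simp only [Matrix.vecMul, dotProduct, Pi.zero_apply] at h1 ⊢
    rw [Finset.sum_mul, zero_mul]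
    have h2 : ∀ i, f (w i) * F i j * f t = f (w i * Z i j) := by
      intro i
      rw [mul_assoc, hZ, map_mul]
    rw [Finset.sum_congr rfl fun i _ => h2 i, ← map_sum, h1, map_zero]
  obtain ⟨p, hp⟩ := lp_exists h' (e * Z)
  have h0 : (1 - p) * e = 0 := by
    ext i j
    have h1 : (fun j => ((1 - p) * e) i j) = 0 := by
      apply hinj2
      · have h2 : (1 - p) * e * e = (1 - p) * e := by rw [Matrix.mul_assoc, he]
        funext j
        have := congrFun (congrFun h2 i) j
        rw [Matrix.mul_apply] at this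
        exact this
      · have h2 : (1 - p) * e * Z = 0 := by
          rw [Matrix.mul_assoc, Matrix.sub_mul, Matrix.one_mul, hp.mul, sub_self]
        funext j
        have := congrFun (congrFun h2 i) j
        rw [Matrix.mul_apply] at this
        exact this
    exact congrFun h1 j
  have h1 : e = p * e := by
    rw [Matrix.sub_mul, Matrix.one_mul, sub_eq_zero] at h0
    exact h0
  calc Tr τ' e = rk τ' e := (rk_idem h' e he).symm
    _ = rk τ' (p * e) := by rw [← h1]
    _ ≤ rk τ' p := rk_mul_left h' p e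
    _ = Tr τ' p := rk_idem h' p hp.idem
    _ = rk τ' (e * Z) := (rk_eq _ _ hp).symm
    _ ≤ Fintype.card (Fin b) := (rk_nonneg h' _).2.2
    _ = b := by rw [Fintype.card_fin]

end Pool.Agent.RK.V3Abs
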