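import Pool.Agent.RK.Defs
import Pool.Agent.RK.RkInj
import Pool.Agent.RK.OreRest
import Pool.Agent.RK.Nz
import Pool.Agent.RK.Common

set_option autoImplicit false
open Matrix


namespace Pool.Agent.RK.RkUEq
open Pool.Agent.RK
open Pool.Agent.RK.RkInj (rk_mul_of_inj rk_mul_of_inj')
open Pool.Agent.RK.OreRest (ore_right ore_left)
open Pool.Agent.RK.Nz (nz_iff nz_mul)
open Pool.Agent.RK.Common (common_right)

open Matrix









theorem rkU_eq_col {R : Type} [Ring R] [StarRing R] {τ : R →+ ℝ} (h : VN R τ) {m n : Type}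
    [Fintype m] [Fintype n] [DecidableEq n] (A : Matrix m n R) (a : R) (ha : Nz a) :
    rk τ (A * Matrix.diagonal (fun _ : n => a)) = rk τ A := by
  apply rk_mul_of_inj h
  intro x hx
  ext j
  have h1 := congrFun hx j
  rw [Matrix.vecMul_diagonal] at h1
  exact ha _ h1

theorem rkU_eq_row {R : Type} [Ring R] [StarRing R] {τ : R →+ ℝ} (h : VN R τ) {m n : Type}
    [Fintype m] [Fintype n] [DecidableEq m] (A : Matrix m n R) (a : R) (ha : Nz a) :
    rk τ (Matrix.diagonal (fun _ : m => a) * A) = rk τ A := by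
  apply rk_mul_of_inj' h
  intro x hx
  ext j
  have h1 := congrFun hx j
  rw [Matrix.mulVec_diagonal] at h1
  exact (nz_iff h a).1 ha _ h1

theorem rkU_eq_aux {R U : Type} [Ring R] [StarRing R] [Ring U] {τ : R →+ ℝ} (h : VN R τ)
    {ι : R →+* U} (hι : Loc ι) {m n : Type} [Fintype m] [Fintype n] (X : Matrix m n U)
    (s : R) (hs : Nz s) (A : Matrix m n R) (hA : ∀ i j, X i j * ι s = ι (A i j))
    (t : R) (ht : Nz t) (B : Matrix m n R) (hB : ∀ i j, X i j * ι t = ι (B i j)) :
    rk τ A = rk τ B := by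
  classical
  obtain ⟨a, b, ha, hab⟩ := ore_right h s t ht
  have hb : Nz b := by
    rw [nz_iff h]
    intro x hx
    apply (nz_iff h (s * a)).1 (nz_mul s a hs ha)
    rw [hab, mul_assoc, hx, mul_zero]
  have h1 : (A * Matrix.diagonal (fun _ : n => a) : Matrix m n R) =
      (B * Matrix.diagonal (fun _ : n => b) : Matrix m n R) := by
    ext i j
    rw [Matrix.mul_diagonal, Matrix.mul_diagonal]
    apply hι.inj
    rw [map_mul, map_mul, ← hA, ← hB, mul_assoc, mul_assoc, ← map_mul, ← map_mul, hab]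
  rw [← rkU_eq_col h A a ha, h1, rkU_eq_col h B b hb]

/-! ## TARGET (prove this) -/

theorem rkU_eq {R U : Type} [Ring R] [StarRing R] [Ring U] {τ : R →+ ℝ} (h : VN R τ)
    {ι : R →+* U} (hι : Loc ι) {m n : Type} [Fintype m] [Fintype n] (X : Matrix m n U)
    (s : R) (hs : Nz s) (A : Matrix m n R) (hA : ∀ i j, X i j * ι s = ι (A i j)) :
    rkU τ ι X = rk τ A := by
  have hex : ∃ (s : R) (A : Matrix m n R), Nz s ∧ ∀ i j, X i j * ι s = ι (A i j) := ⟨s, A, hs, hA⟩
  have h1 : rkU τ ι X = rk τ hex.choose_spec.choose := dif_pos hex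
  rw [h1]
  exact rkU_eq_aux h hι X hex.choose hex.choose_spec.choose_spec.1 _
    hex.choose_spec.choose_spec.2 s hs A hA

theorem rkU_eq' {R U : Type} [Ring R] [StarRing R] [Ring U] {τ : R →+ ℝ} (h : VN R τ)
    {ι : R →+* U} (hι : Loc ι) {m n : Type} [Fintype m] [Fintype n] (X : Matrix m n U)
    (s : R) (hs : Nz s) (A : Matrix m n R) (hA : ∀ i j, ι s * X i j = ι (A i j)) :
    rkU τ ι X = rk τ A := by
  classical
  obtain ⟨t, B, ht, hB⟩ := common_right h hι X
  rw [rkU_eq h hι X t ht B hB]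
  have h1 : (A * Matrix.diagonal (fun _ : n => t) : Matrix m n R) =
      (Matrix.diagonal (fun _ : m => s) * B : Matrix m n R) := by
    ext i j
    rw [Matrix.mul_diagonal, Matrix.diagonal_mul]
    apply hι.inj
    rw [map_mul, map_mul, ← hA, ← hB, mul_assoc]
  rw [← rkU_eq_col h A t ht, h1, rkU_eq_row h B s hs]

theorem rkU_map {R U : Type} [Ring R] [StarRing R] [Ring U] {τ : R →+ ℝ} (h : VN R τ)
    {ι : R →+* U} (hι : Loc ι) {m n : Type} [Fintype m] [Fintype n] (A : Matrix m n R) :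
    rkU τ ι (A.map ι) = rk τ A := by
  refine rkU_eq h hι (A.map ι) 1 (fun x hx => by rwa [mul_one] at hx) A fun i j => ?_
  rw [map_one, mul_one, Matrix.map_apply]

end Pool.Agent.RK.RkUEq
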