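import Pool.Agent.RK.Defs
import Pool.Agent.RK.Lp
import Pool.Agent.RK.Proj
import Pool.Agent.RK.Tr

set_option autoImplicit false
open Matrix


namespace Pool.Agent.RK.RkSyl
open Pool.Agent.RK
open Pool.Agent.RK.Lp (lp_exists lp_unique rk_eq rk_star)
open Pool.Agent.RK.Proj (proj_le)
open Pool.Agent.RK.Tr (tr_star)

open Matrix








/-! ## TARGET (prove this) -/

theorem rk_sylvester {R : Type} [Ring R] [StarRing R] {τ : R →+ ℝ} (h : VN R τ) {m n k : Type}
    [Fintype m] [Fintype n] [Fintype k] (A : Matrix m n R) (B : Matrix n k R) (hAB : A * B = 0) :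
    rk τ A + rk τ B ≤ Fintype.card n := by
  classical
  obtain ⟨q, hq⟩ := lp_exists h (Aᴴ)
  obtain ⟨p, hp⟩ := lp_exists h B
  have h1 : Bᴴ * Aᴴ = 0 := by
    rw [← Matrix.conjTranspose_mul, hAB, Matrix.conjTranspose_zero]
  have h2 : Bᴴ * q = 0 := by
    ext i j
    have h3 : Matrix.vecMul (Bᴴ i) Aᴴ = 0 := by
      funext l
      have := congrFun (congrFun h1 i) l
      exact this
    have := congrFun (hq.min _ h3) j
    exact this
  have h3 : q * B = 0 := by
    have := congrArg Matrix.conjTranspose h2
    rw [Matrix.conjTranspose_mul, Matrix.conjTranspose_conjTranspose, hq.star,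
      Matrix.conjTranspose_zero] at this
    exact this
  have h4 : q * p = 0 := by
    ext i j
    have h5 : Matrix.vecMul (q i) B = 0 := by
      funext l
      have := congrFun (congrFun h3 i) l
      exact this
    have := congrFun (hp.min _ h5) j
    exact this
  have h5 : p * q = 0 := by
    have := congrArg Matrix.conjTranspose h4
    rw [Matrix.conjTranspose_mul, hq.star, hp.star, Matrix.conjTranspose_zero] at this
    exact this
  have h6 : (p + q) * (p + q) = p + q := by
    rw [add_mul, mul_add, mul_add, hp.idem, hq.idem, h4, h5]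
    simp
  have h7 : (p + q)ᴴ = p + q := by
    rw [Matrix.conjTranspose_add, hp.star, hq.star]
  have h8 := (proj_le h (p + q) 1 h6 h7 (mul_one _) Matrix.conjTranspose_one (one_mul _)).1
  have h9 : Tr τ (1 : Matrix n n R) = Fintype.card n := by
    simp [Tr, h.one]
  have h10 : Tr τ (p + q) = Tr τ p + Tr τ q := by
    simp [Tr, Finset.sum_add_distrib]
  rw [← rk_star h A, rk_eq _ q hq, rk_eq _ p hp]
  linarith

theorem rk_blocks {R : Type} [Ring R] [StarRing R] {τ : R →+ ℝ} (h : VN R τ)
    {m n m' n' : Type} [Fintype m] [Fintype n] [Fintype m'] [Fintype n']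
    (A : Matrix m n R) (B : Matrix m' n' R) :
    rk τ (Matrix.fromBlocks A 0 0 B) = rk τ A + rk τ B := by
  obtain ⟨p, hp⟩ := lp_exists h A
  obtain ⟨q, hq⟩ := lp_exists h B
  have key : IsLP (Matrix.fromBlocks A 0 0 B) (Matrix.fromBlocks p 0 0 q) := by
    refine ⟨?_, ?_, ?_, ?_⟩
    · rw [Matrix.fromBlocks_multiply]
      simp [hp.idem, hq.idem]
    · rw [Matrix.fromBlocks_conjTranspose]
      simp [hp.star, hq.star]
    · rw [Matrix.fromBlocks_multiply]
      simp [hp.mul, hq.mul]
    · intro x hx
      rw [Matrix.vecMul_fromBlocks] at hx ⊢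
      have a1 : Matrix.vecMul (x ∘ Sum.inl) A = 0 := by
        funext j
        have := congrFun hx (Sum.inl j)
        simpa using this
      have a2 : Matrix.vecMul (x ∘ Sum.inr) B = 0 := by
        funext j
        have := congrFun hx (Sum.inr j)
        simpa using this
      rw [hp.min _ a1, hq.min _ a2]
      funext j
      rcases j with j | j <;> simp
  rw [rk_eq _ _ key, rk_eq _ _ hp, rk_eq _ _ hq]
  simp [Tr, Fintype.sum_sum_type]

end Pool.Agent.RK.RkSyl
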