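import Pool.Agent.RK.Defs
import Pool.Agent.RK.RkUEq
import Pool.Agent.RK.Common
import Pool.Agent.RK.RkMul
import Pool.Agent.RK.RkIdem
import Pool.Agent.RK.RkSyl
import Pool.Agent.RK.RkInj
import Pool.Agent.RK.Nz

set_option autoImplicit false
open Matrix


namespace Pool.Agent.RK.RkUMul
open Pool.Agent.RK
open Pool.Agent.RK.RkUEq (rkU_eq rkU_eq' rkU_map)
open Pool.Agent.RK.Common (common_right common_left)
open Pool.Agent.RK.RkMul (rk_mul_left rk_mul_right rk_nonneg)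
open Pool.Agent.RK.RkIdem (rk_zero)
open Pool.Agent.RK.RkSyl (rk_sylvester rk_blocks)
open Pool.Agent.RK.RkInj (rk_mul_of_inj rk_mul_of_inj')
open Pool.Agent.RK.Nz (nz_iff nz_mul)

open Matrix

















/-! ## TARGET (prove this) -/

theorem rkU_mul_key {R U : Type} [Ring R] [StarRing R] [Ring U] {τ : R →+ ℝ} (h : VN R τ)
    {ι : R →+* U} (hι : Loc ι) {m n k : Type} [Fintype m] [Fintype n] [Fintype k]
    (X : Matrix m n U) (Y : Matrix n k U) :
    ∃ (A : Matrix m n R) (B : Matrix n k R), rkU τ ι X = rk τ A ∧ rkU τ ι Y = rk τ B ∧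
      rkU τ ι (X * Y) = rk τ (A * B) ∧ (X * Y = 0 → A * B = 0) := by
  obtain ⟨s, A, hs, hA⟩ := common_left h hι X
  obtain ⟨t, B, ht, hB⟩ := common_right h hι Y
  have hZ : ∀ i j, ι s * ((X * Y) i j * ι t) = ι ((A * B) i j) := by
    intro i j
    rw [Matrix.mul_apply, Matrix.mul_apply, map_sum, Finset.sum_mul, Finset.mul_sum]
    refine Finset.sum_congr rfl fun l _ => ?_
    rw [map_mul, ← hA, ← hB]
    simp only [mul_assoc]
  have h1 : rkU τ ι (Matrix.of fun i j => (X * Y) i j * ι t) = rk τ (A * B) :=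
    rkU_eq' h hι _ s hs _ (fun i j => hZ i j)
  obtain ⟨r, C, hr, hC⟩ := common_right h hι (Matrix.of fun i j => (X * Y) i j * ι t)
  have h2 : rkU τ ι (Matrix.of fun i j => (X * Y) i j * ι t) = rk τ C :=
    rkU_eq h hι _ r hr _ hC
  have h3 : rkU τ ι (X * Y) = rk τ C := by
    refine rkU_eq h hι _ (t * r) (nz_mul t r ht hr) _ (fun i j => ?_)
    rw [map_mul, ← mul_assoc]
    exact hC i j
  refine ⟨A, B, rkU_eq' h hι X s hs A hA, rkU_eq h hι Y t ht B hB, h3.trans (h2.symm.trans h1), ?_⟩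
  intro h0
  ext i j
  apply hι.inj
  rw [← hZ, h0]
  simp

theorem rkU_mul {R U : Type} [Ring R] [StarRing R] [Ring U] {τ : R →+ ℝ} (h : VN R τ)
    {ι : R →+* U} (hι : Loc ι) {m n k : Type} [Fintype m] [Fintype n] [Fintype k]
    (X : Matrix m n U) (Y : Matrix n k U) :
    rkU τ ι (X * Y) ≤ rkU τ ι X ∧ rkU τ ι (X * Y) ≤ rkU τ ι Y := by
  obtain ⟨A, B, h1, h2, h3, _⟩ := rkU_mul_key h hι X Y
  rw [h1, h2, h3]
  exact ⟨rk_mul_left h A B, rk_mul_right h A B⟩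

theorem rkU_sylvester {R U : Type} [Ring R] [StarRing R] [Ring U] {τ : R →+ ℝ} (h : VN R τ)
    {ι : R →+* U} (hι : Loc ι) {m n k : Type} [Fintype m] [Fintype n] [Fintype k]
    (X : Matrix m n U) (Y : Matrix n k U) (hXY : X * Y = 0) :
    rkU τ ι X + rkU τ ι Y ≤ Fintype.card n := by
  obtain ⟨A, B, h1, h2, _, h4⟩ := rkU_mul_key h hι X Y
  rw [h1, h2]
  exact rk_sylvester h A B (h4 hXY)

theorem rkU_blocks {R U : Type} [Ring R] [StarRing R] [Ring U] {τ : R →+ ℝ} (h : VN R τ)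
    {ι : R →+* U} (hι : Loc ι) {m n m' n' : Type} [Fintype m] [Fintype n] [Fintype m']
    [Fintype n'] (X : Matrix m n U) (Y : Matrix m' n' U) :
    rkU τ ι (Matrix.fromBlocks X 0 0 Y) = rkU τ ι X + rkU τ ι Y := by
  obtain ⟨s, A, hs, hA⟩ := common_right h hι (Matrix.fromBlocks X 0 0 Y)
  have h1 : rkU τ ι (Matrix.fromBlocks X 0 0 Y) = rk τ A := rkU_eq h hι _ s hs A hA
  have hX : rkU τ ι X = rk τ A.toBlocks₁₁ :=
    rkU_eq h hι X s hs _ (fun i j => hA (Sum.inl i) (Sum.inl j))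
  have hY : rkU τ ι Y = rk τ A.toBlocks₂₂ :=
    rkU_eq h hι Y s hs _ (fun i j => hA (Sum.inr i) (Sum.inr j))
  have h12 : A.toBlocks₁₂ = 0 := by
    ext i j
    apply hι.inj
    have h2 := hA (Sum.inl i) (Sum.inr j)
    rw [Matrix.fromBlocks_apply₁₂, Matrix.zero_apply, zero_mul] at h2
    rw [Matrix.zero_apply, map_zero]
    exact h2.symm
  have h21 : A.toBlocks₂₁ = 0 := by
    ext i j
    apply hι.inj
    have h2 := hA (Sum.inr i) (Sum.inl j)
    rw [Matrix.fromBlocks_apply₂₁, Matrix.zero_apply, zero_mul] at h2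
    rw [Matrix.zero_apply, map_zero]
    exact h2.symm
  rw [h1, hX, hY, ← rk_blocks h]
  congr 1
  conv_lhs => rw [← Matrix.fromBlocks_toBlocks A, h12, h21]

theorem rkU_bounds {R U : Type} [Ring R] [StarRing R] [Ring U] {τ : R →+ ℝ} (h : VN R τ)
    {ι : R →+* U} (hι : Loc ι) {m n : Type} [Fintype m] [Fintype n] (X : Matrix m n U) :
    0 ≤ rkU τ ι X ∧ rkU τ ι X ≤ Fintype.card m ∧ rkU τ ι X ≤ Fintype.card n ∧
      (rkU τ ι X = 0 → X = 0) := by
  obtain ⟨s, A, hs, hA⟩ := common_right h hι X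
  have h1 : rkU τ ι X = rk τ A := rkU_eq h hι X s hs A hA
  obtain ⟨h2, h3, h4⟩ := rk_nonneg h A
  rw [h1]
  refine ⟨h2, h3, h4, fun h5 => ?_⟩
  have h6 := (rk_zero h A).1 h5
  ext i j
  have h7 := hA i j
  rw [h6, Matrix.zero_apply, map_zero] at h7
  rw [Matrix.zero_apply]
  exact (hι.unit s hs).mul_left_eq_zero.1 h7

end Pool.Agent.RK.RkUMul
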