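import Pool.Agent.RK.Defs
import Pool.Agent.RK.RkUEq
import Pool.Agent.RK.RkUMul
import Pool.Agent.RK.Common
import Pool.Agent.RK.RkFull

set_option autoImplicit false
open Matrix


namespace Pool.Agent.RK.RkUInv
open Pool.Agent.RK
open Pool.Agent.RK.RkUEq (rkU_eq rkU_map)
open Pool.Agent.RK.RkUMul (rkU_mul rkU_bounds)
open Pool.Agent.RK.Common (common_right)
open Pool.Agent.RK.RkFull (rk_full_left)

open Matrix








/-! ## TARGET (prove this) -/

theorem rkU_unit {R U : Type} [Ring R] [StarRing R] [Ring U] {τ : R →+ ℝ} (h : VN R τ)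
    {ι : R →+* U} (hι : Loc ι) (x : U) (hx : rkU τ ι (fun _ _ : Unit => x) = 1) : IsUnit x := by
  obtain ⟨s, a, hs, hsa⟩ := hι.right x
  have h1 := rkU_eq h hι (fun _ _ : Unit => x) s hs (fun _ _ : Unit => a) (fun _ _ => hsa)
  rw [hx] at h1
  have h2 := (rk_full_left h (fun _ _ : Unit => a)).1 (by rw [← h1]; simp)
  have h3 : Nz a := by
    intro z hz
    have h4 := h2 (fun _ => z) (by
      funext i
      simp [Matrix.vecMul, dotProduct, hz])
    exact congrFun h4 ()
  obtain ⟨u, hu⟩ := hι.unit s hs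
  obtain ⟨w, hw⟩ := hι.unit a h3
  have h5 : x = ((w * u⁻¹ : Uˣ) : U) := by
    rw [Units.val_mul, hw, ← hsa, ← hu, Units.mul_inv_cancel_right]
  rw [h5]
  exact Units.isUnit _

theorem rkU_inv {R U : Type} [Ring R] [StarRing R] [Ring U] {τ : R →+ ℝ} (h : VN R τ)
    {ι : R →+* U} (hι : Loc ι) {m : Type} [Fintype m] [DecidableEq m] (X Y : Matrix m m U)
    (hXY : X * Y = 1) : rkU τ ι X = Fintype.card m := by
  have h1 : rkU τ ι (1 : Matrix m m U) = Fintype.card m := by
    have h2 : (1 : Matrix m m U) = (1 : Matrix m m R).map ι := by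
      rw [Matrix.map_one _ (map_zero ι) (map_one ι)]
    rw [h2, rkU_map h hι]
    rw [rk_full_left h]
    intro x hx
    rwa [Matrix.vecMul_one] at hx
  have h3 := (rkU_mul h hι X Y).1
  rw [hXY, h1] at h3
  exact le_antisymm (rkU_bounds h hι X).2.1 h3

theorem rkU_equiv {R U : Type} [Ring R] [StarRing R] [Ring U] {τ : R →+ ℝ} (h : VN R τ)
    {ι : R →+* U} (hι : Loc ι) {m n : Type} [Fintype m] [Fintype n] [DecidableEq m]
    [DecidableEq n] (X : Matrix m n U) (P P' : Matrix m m U) (Q Q' : Matrix n n U)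
    (hP : P' * P = 1) (hQ : Q * Q' = 1) : rkU τ ι (P * X * Q) = rkU τ ι X := by
  apply le_antisymm
  · exact ((rkU_mul h hι (P * X) Q).1).trans (rkU_mul h hι P X).2
  · have h1 : X = P' * (P * X * Q) * Q' := by
      calc X = (P' * P) * X * (Q * Q') := by rw [hP, hQ, Matrix.one_mul, Matrix.mul_one]
        _ = P' * (P * X * Q) * Q' := by simp only [Matrix.mul_assoc]
    have h2 := ((rkU_mul h hι (P' * (P * X * Q)) Q').1).trans (rkU_mul h hι P' (P * X * Q)).2
    rwa [← h1] at h2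

end Pool.Agent.RK.RkUInv
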