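import Pool.Agent.RK.Defs
import Pool.Agent.RK.Lp
import Pool.Agent.RK.RkUEq
import Pool.Agent.RK.RkUMul
import Pool.Agent.RK.RkUInv

set_option autoImplicit false
open Matrix


namespace Pool.Agent.RK.RatUnit
open Pool.Agent.RK
open Pool.Agent.RK.Lp (rk_reindex)
open Pool.Agent.RK.RkUEq (rkU_map)
open Pool.Agent.RK.RkUMul (rkU_blocks rkU_bounds)
open Pool.Agent.RK.RkUInv (rkU_unit rkU_inv rkU_equiv)

open Matrix









/-! ## TARGET (prove this) -/

theorem rat_unit {Λ R U : Type} [Ring Λ] [Ring R] [StarRing R] [Ring U] {τ : R →+ ℝ}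
    (h : VN R τ) {ι : R →+* U} (hι : Loc ι) (κ : Λ →+* R)
    (hint : ∀ (m n : ℕ) (A : Matrix (Fin m) (Fin n) Λ), ∃ k : ℕ, rk τ (A.map κ) = k)
    (x : U) (hx : x ∈ ratSet (ι.comp κ)) (h0 : x ≠ 0) : IsUnit x := by
  obtain ⟨n, A, B, b, c, hAB, hBA, hxe⟩ := hx
  let M : Matrix (Fin n ⊕ Unit) (Fin n ⊕ Unit) Λ :=
    Matrix.fromBlocks A (fun i _ => c i) (fun _ j => b j) 0
  let A' : Matrix (Fin n) (Fin n) U := A.map (ι.comp κ)
  let c' : Matrix (Fin n) Unit U := fun i _ => ι (κ (c i))
  let b' : Matrix Unit (Fin n) U := fun _ j => ι (κ (b j))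
  let X : Matrix Unit Unit U := b' * B * c'
  obtain ⟨e⟩ : Nonempty (Fin (n + 1) ≃ Fin n ⊕ Unit) := by
    apply Fintype.card_eq.1
    simp
  obtain ⟨k, hk⟩ := hint (n + 1) (n + 1) (M.submatrix e e)
  have hk1 : rk τ (M.map κ) = k := by
    rw [← hk, ← rk_reindex h (M.map κ) e e]
    rfl
  have hMU : (M.map κ).map ι = Matrix.fromBlocks A' c' b' 0 := by
    ext i j
    rcases i with i | i <;> rcases j with j | j <;>
      simp [M, A', c', b', Matrix.fromBlocks, Matrix.map_apply]
  have hX : X () () = x := by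
    rw [hxe]
    show (b' * B * c') () () = _
    rw [Matrix.mul_apply, Finset.sum_comm]
    refine Finset.sum_congr rfl fun j _ => ?_
    rw [Matrix.mul_apply, Finset.sum_mul]
    rfl
  have hfac : Matrix.fromBlocks 1 0 (b' * B) 1 * Matrix.fromBlocks A' 0 0 (-X) *
      Matrix.fromBlocks 1 (B * c') 0 1 = Matrix.fromBlocks A' c' b' 0 := by
    rw [Matrix.fromBlocks_multiply, Matrix.fromBlocks_multiply]
    have e1 : A' * (B * c') = c' := by
      rw [← Matrix.mul_assoc]
      show A.map (ι.comp κ) * B * c' = c'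
      rw [hAB, Matrix.one_mul]
    have e2 : b' * B * A' = b' := by
      rw [Matrix.mul_assoc]
      show b' * (B * A.map (ι.comp κ)) = b'
      rw [hBA, Matrix.mul_one]
    have e3 : b' * (B * c') = X := by
      show b' * (B * c') = b' * B * c'
      rw [Matrix.mul_assoc]
    simp only [Matrix.one_mul, Matrix.mul_one, Matrix.zero_mul, Matrix.mul_zero, add_zero,
      zero_add, e1, e2, e3, add_neg_cancel]
  have hP : Matrix.fromBlocks (1 : Matrix (Fin n) (Fin n) U) 0 (-(b' * B)) 1 *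
      Matrix.fromBlocks (1 : Matrix (Fin n) (Fin n) U) 0 (b' * B) (1 : Matrix Unit Unit U) = 1 := by
    rw [Matrix.fromBlocks_multiply, ← Matrix.fromBlocks_one]
    simp
  have hQ : Matrix.fromBlocks (1 : Matrix (Fin n) (Fin n) U) (B * c') 0 (1 : Matrix Unit Unit U) *
      Matrix.fromBlocks (1 : Matrix (Fin n) (Fin n) U) (-(B * c')) 0 1 = 1 := by
    rw [Matrix.fromBlocks_multiply, ← Matrix.fromBlocks_one]
    simp
  have hr1 : rkU τ ι (Matrix.fromBlocks A' c' b' 0) = k := by
    rw [← hMU, rkU_map h hι, hk1]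
  have hr2 : rkU τ ι (Matrix.fromBlocks A' c' b' 0) = n + rkU τ ι (-X) := by
    rw [← hfac, rkU_equiv h hι _ _ _ _ _ hP hQ, rkU_blocks h hι, rkU_inv h hι A' B hAB]
    simp
  obtain ⟨hb0, hb1, _, hbz⟩ := rkU_bounds h hι (-X)
  have hb1' : rkU τ ι (-X) ≤ 1 := by simpa using hb1
  have hkn : (k : ℝ) = n + rkU τ ι (-X) := by rw [← hr1, hr2]
  have hkn1 : n ≤ k := by
    have : (n : ℝ) ≤ k := by linarith
    exact_mod_cast this
  have hkn2 : k ≤ n + 1 := by
    have : (k : ℝ) ≤ n + 1 := by linarith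
    exact_mod_cast this
  rcases Nat.lt_or_ge n k with hlt | hge
  · have hkk : k = n + 1 := by omega
    have hrx : rkU τ ι (-X) = 1 := by
      rw [hkk] at hkn
      push_cast at hkn
      linarith
    have hXx : -X = (fun _ _ : Unit => -x) := by
      funext i j
      show -(X i j) = -x
      rw [show i = () from rfl, show j = () from rfl, hX]
    rw [hXx] at hrx
    have hu := rkU_unit h hι (-x) hrx
    exact (IsUnit.neg_iff x).1 hu
  · have hkk : k = n := by omega
    have hrx : rkU τ ι (-X) = 0 := by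
      rw [hkk] at hkn
      linarith
    have hX0 := hbz hrx
    exfalso
    apply h0
    rw [← hX]
    have : -(X () ()) = 0 := by
      have := congrFun (congrFun hX0 ()) ()
      simpa using this
    simpa using this

end Pool.Agent.RK.RatUnit
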