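import Pool.Agent.RK.Defs2
import Pool.Agent.RK.UN

set_option autoImplicit false
open Matrix
open scoped Classical

namespace Pool.Agent.RK.DcSub
open Pool.Agent.RK
open Pool.Agent.RK.UN (un_add un_mul un_inv)

open Matrix





/-! ## TARGET (prove this) -/

/-- The division subring generated by `N` lies in `U_N`. -/
theorem dc_subset {Γ : Type} [Group Γ] {R' R U D : Type} [Ring R'] [StarRing R'] [Ring R]
    [Ring U] [DivisionRing D] {τ' : R' →+ ℝ} (h' : VN R' τ') (j : R' →+* R)
    (hinj : Function.Injective j) (hj : ∀ s, Nz s → Nz (j s)) {ι : R →+* U} (hι : Loc ι)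
    (e : D →+* U) (u : Γ →* Dˣ) (lam : Γ → R) (hu : ∀ g, e ((u g : Dˣ) : D) = ι (lam g))
    (N : Subgroup Γ) (hN : ∀ g ∈ N, ∃ r : R', j r = lam g) :
    ∀ d ∈ TN970.Dc u N, e d ∈ UN j ι := by
  have hone : Nz (1 : R') := fun x hx => by simpa using hx
  have hbase : ∀ r : R', ι (j r) ∈ UN j ι := fun r => ⟨1, r, hone, by simp⟩
  have h0 : (0 : U) ∈ UN j ι := by simpa using hbase 0
  have h1 : (1 : U) ∈ UN j ι := by simpa using hbase 1
  have hn1 : (-1 : U) ∈ UN j ι := by simpa using hbase (-1)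
  intro d hd
  unfold TN970.Dc at hd
  induction hd using Subfield.closure_induction with
  | mem x hx =>
    obtain ⟨g, hg, rfl⟩ := hx
    obtain ⟨r, hr⟩ := hN g hg
    rw [hu, ← hr]
    exact hbase r
  | one => rw [map_one]; exact h1
  | add x y _ _ hx hy => rw [map_add]; exact un_add h' j hj hι _ _ hx hy
  | neg x _ hx =>
    have : e (-x) = (-1) * e x := by rw [map_neg, neg_one_mul]
    rw [this]
    exact un_mul h' j hj hι _ _ hn1 hx
  | inv x _ hx =>
    by_cases hx0 : x = 0
    · rw [hx0, _root_.inv_zero, map_zero]; exact h0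
    · refine un_inv h' j hinj hj hι (e x) _ hx ?_ ?_
      · rw [← map_mul, mul_inv_cancel₀ hx0, map_one]
      · rw [← map_mul, inv_mul_cancel₀ hx0, map_one]
  | mul x y _ _ hx hy => rw [map_mul]; exact un_mul h' j hj hι _ _ hx hy

end Pool.Agent.RK.DcSub
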