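import Pool.Agent.RK.Defs2
import Pool.Agent.RK.DcSub
import Pool.Agent.RK.UN

set_option autoImplicit false
open Matrix
open scoped Classical

namespace Pool.Agent.RK.Linn
open Pool.Agent.RK
open Pool.Agent.RK.DcSub (dc_subset)
open Pool.Agent.RK.UN (un_common)

open Matrix




/-! ## TARGET (prove this) -/

/-- Linnell's property from the orthogonality of cosets. -/
theorem linnell_of {Γ : Type} [Group Γ] {R U D : Type} [Ring R] [Ring U] [DivisionRing D]
    {ι : R →+* U} (hι : Loc ι) (e : D →+* U) (u : Γ →* Dˣ) (lam : Γ → R)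
    (hu : ∀ g, e ((u g : Dˣ) : D) = ι (lam g))
    (hsub : ∀ N : Subgroup Γ, N.Normal → ∃ (R' : Type) (_ : Ring R') (_ : StarRing R')
      (τ' : R' →+ ℝ) (j : R' →+* R), VN R' τ' ∧ Function.Injective j ∧ (∀ s, Nz s → Nz (j s)) ∧
        (∀ g ∈ N, ∃ r : R', j r = lam g) ∧
        ∀ (s : Finset Γ) (x : Γ → R'), (∀ g ∈ s, ∀ h ∈ s, g ≠ h → g * h⁻¹ ∉ N) →
          ∑ g ∈ s, j (x g) * lam g = 0 → ∀ g ∈ s, x g = 0) :
    TN970.Linnell u := by
  classical
  intro N hN s hs
  obtain ⟨R', i1, i2, τ', j, h', hinj, hj, hNr, hcos⟩ := hsub N hN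
  have hnt' : (1 : R') ≠ 0 := by
    intro h
    have h1 := h'.one
    rw [h, map_zero] at h1
    norm_num at h1
  have hntU : (1 : U) ≠ 0 := by
    intro h
    apply hnt'
    apply hinj
    apply hι.inj
    rw [map_one, map_one, map_zero, map_zero, h]
  haveI : Nontrivial U := ⟨1, 0, hntU⟩
  rw [Fintype.linearIndependent_iff]
  intro d hd g0
  have hd1 : ∑ i : s, (d i : D) * ((u (i : Γ) : Dˣ) : D) = 0 := by
    rw [← hd]
    rfl
  have hd2 : ∑ i : s, e (d i : D) * ι (lam (i : Γ)) = 0 := by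
    have h1 := congrArg e hd1
    rw [map_sum, map_zero] at h1
    rw [← h1]
    refine Finset.sum_congr rfl fun i _ => ?_
    rw [map_mul, hu]
  have hmem : ∀ i : s, e (d i : D) ∈ UN j ι := fun i =>
    dc_subset h' j hinj hj hι e u lam hu N hNr (d i) (d i).2
  obtain ⟨t, x, ht, hx⟩ := un_common h' j hj hι (fun i : s => e (d i : D)) hmem
  have hx' : ∀ i : s, ι (j t) * e (d i : D) = ι (j (x i)) := hx
  have h3 : ∑ i : s, j (x i) * lam (i : Γ) = 0 := by
    apply hι.inj
    rw [map_zero, map_sum]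
    have h4 : ι (j t) * ∑ i : s, e (d i : D) * ι (lam (i : Γ)) = 0 := by rw [hd2, mul_zero]
    rw [← h4, Finset.mul_sum]
    refine Finset.sum_congr rfl fun i _ => ?_
    rw [map_mul, ← hx' i, mul_assoc]
  have h5 : ∑ g ∈ s, j ((fun g => if h : g ∈ s then x ⟨g, h⟩ else 0) g) * lam g = 0 := by
    rw [← Finset.sum_coe_sort, ← h3]
    refine Finset.sum_congr rfl fun i _ => ?_
    simp only [i.2, dif_pos, Subtype.coe_eta]
  have h6 := hcos s (fun g => if h : g ∈ s then x ⟨g, h⟩ else 0) hs h5 g0 g0.2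
  have h7 : x g0 = 0 := by
    simp only [g0.2, dif_pos, Subtype.coe_eta] at h6
    exact h6
  have h8 := hx' g0
  rw [h7, map_zero, map_zero] at h8
  have h9 : e (d g0 : D) = 0 := ((hι.unit _ (hj t ht)).mul_right_eq_zero).1 h8
  have h10 : (d g0 : D) = 0 := by
    apply e.injective
    rw [h9, map_zero]
  exact Subtype.ext h10

end Pool.Agent.RK.Linn
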