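import Pool.Agent.RK.Defs

set_option autoImplicit false

namespace Pool.Agent.RK.Transport

open Pool.Agent.RK
open Matrix

theorem isLP_map {R S : Type} [Ring R] [StarRing R] [Ring S] [StarRing S] (σ : R ≃+* S)
    (hσ : ∀ x, σ (star x) = star (σ x)) {m n : Type} [Fintype m] [Fintype n]
    (A : Matrix m n R) (p : Matrix m m R) (h : IsLP A p) : IsLP (A.map σ) (p.map σ) := by
  have hmul : ∀ {k l o : Type} [Fintype l] (M : Matrix k l R) (M' : Matrix l o R),
      M.map σ * M'.map σ = (M * M').map σ := by
    intro k l o _ M M'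
    ext i j
    simp [Matrix.mul_apply, map_sum]
  refine ⟨?_, ?_, ?_, ?_⟩
  · rw [hmul, h.idem]
  · ext i j
    rw [Matrix.conjTranspose_apply, Matrix.map_apply, Matrix.map_apply, ← hσ]
    congr 1
    exact congrFun (congrFun h.star i) j
  · rw [hmul, h.mul]
  · intro x hx
    have key : ∀ {k : Type} (y : m → S) (B : Matrix m k R),
        Matrix.vecMul y (B.map σ) = fun j => σ (Matrix.vecMul (fun i => σ.symm (y i)) B j) := by
      intro k y B
      funext j
      simp [Matrix.vecMul, dotProduct, map_sum]
    rw [key] at hx ⊢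
    have h2 : Matrix.vecMul (fun i => σ.symm (x i)) A = 0 := by
      funext j
      have := congrFun hx j
      simpa using this
    rw [h.min _ h2]
    funext j
    simp

/-- The star on `S` transported along the ring isomorphism `σ`. -/
@[reducible] def starT {R S : Type} [Ring R] [StarRing R] [Ring S] (σ : R ≃+* S) : StarRing S where
  star s := σ (star (σ.symm s))
  star_involutive s := by simp
  star_mul a b := by simp
  star_add a b := by simp

theorem vn_transport {R S : Type} [Ring R] [StarRing R] [Ring S] (σ : R ≃+* S) {τ : R →+ ℝ}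
    (h : VN R τ) : ∃ (i : StarRing S), @VN S _ i (τ.comp (σ.symm : S →+ R)) := by
  let i : StarRing S := starT σ
  have hst : ∀ s : S, star s = σ (star (σ.symm s)) := fun s => rfl
  have hσ : ∀ x, σ (star x) = star (σ x) := by
    intro x
    rw [hst, σ.symm_apply_apply]
  have hσ' : ∀ s, σ.symm (star s) = star (σ.symm s) := by
    intro s
    rw [hst, σ.symm_apply_apply]
  have hback : ∀ {m n : Type} (A : Matrix m n S), (A.map σ.symm).map σ = A := by
    intro m n A
    ext i j
    simp
  have hTr : ∀ {m : ℕ} (p : Matrix (Fin m) (Fin m) S),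
      Tr (τ.comp (σ.symm : S →+ R)) p = Tr τ (p.map σ.symm) := fun p => rfl
  refine ⟨i, ?_⟩
  constructor
  · intro x y
    show τ (σ.symm (x * y)) = τ (σ.symm (y * x))
    rw [σ.symm.map_mul, σ.symm.map_mul, h.comm]
  · show τ (σ.symm 1) = 1
    rw [σ.symm.map_one, h.one]
  · intro x
    show 0 ≤ τ (σ.symm (star x * x))
    rw [σ.symm.map_mul, hσ']
    exact h.nonneg _
  · intro x hx
    have hx' : τ (σ.symm (star x * x)) = 0 := hx
    rw [σ.symm.map_mul, hσ'] at hx'
    have := h.faithful _ hx'
    simpa using this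
  · intro m n A
    obtain ⟨p, hp⟩ := h.lp m n (A.map σ.symm)
    refine ⟨p.map σ, ?_⟩
    have := isLP_map σ hσ _ _ hp
    rwa [hback] at this
  · intro m n A p q hp hq
    rw [hTr, hTr]
    have hp' := isLP_map σ.symm hσ' _ _ hp
    have hq' := isLP_map σ.symm hσ' _ _ hq
    refine h.lp_tr m n (A.map σ.symm) _ _ hp' ?_
    have h1 : (A.map σ.symm)ᴴ = Aᴴ.map σ.symm := by
      ext i j
      simp [Matrix.conjTranspose_apply, hσ']
    rw [h1]
    exact hq'

end Pool.Agent.RK.Transport
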