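import Pool.Agent.RK.Defs
import Pool.Agent.RK.Lp
import Pool.Agent.RK.RkIdem
import Pool.Agent.RK.RkMul
import Pool.Agent.RK.Common

set_option autoImplicit false
open Matrix


namespace Pool.Agent.RK.Embed
open Pool.Agent.RK
open Pool.Agent.RK.Lp (lp_exists rk_eq)
open Pool.Agent.RK.RkIdem (rk_idem)
open Pool.Agent.RK.RkMul (rk_mul_left rk_mul_right rk_nonneg)
open Pool.Agent.RK.Common (common_right)

open Matrix









/-! ## TARGET (prove this) -/

theorem embed_le {R U : Type} [Ring R] [StarRing R] [Ring U] {τ : R →+ ℝ} (h : VN R τ)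
    {ι : R →+* U} (hι : Loc ι) {k l : Type} [Fintype k] [Fintype l] (e : Matrix k k R)
    (he : e * e = e) (φ : (k → R) → (l → U)) (hadd : ∀ v w, φ (v + w) = φ v + φ w)
    (hsmul : ∀ (r : R) (v : k → R), φ (fun i => r * v i) = fun j => ι r * φ v j)
    (hinj : ∀ v : k → R, Matrix.vecMul v e = v → φ v = 0 → v = 0) :
    Tr τ e ≤ Fintype.card l := by
  classical
  let Φ : (k → R) →+ (l → U) := AddMonoidHom.mk' φ hadd
  have hΦ : ∀ v, Φ v = φ v := fun v => rfl
  let Y : Matrix k l U := fun j => φ (e j)
  have hmul : ∀ (v : k → R) (t : l), φ (Matrix.vecMul v e) t = ∑ j, ι (v j) * Y j t := by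
    intro v t
    have h1 : Matrix.vecMul v e = ∑ j, (fun i => v j * e j i) := by
      funext i
      rw [Finset.sum_apply]
      rfl
    rw [h1, ← hΦ, map_sum, Finset.sum_apply]
    refine Finset.sum_congr rfl fun j _ => ?_
    rw [hΦ, hsmul]
  obtain ⟨s, Z, hs, hZ⟩ := common_right h hι Y
  have hrow : ∀ j, Matrix.vecMul (e j) e = e j := by
    intro j
    have := congrFun he j
    exact this
  have heZ : e * Z = Z := by
    ext j t
    apply hι.inj
    rw [Matrix.mul_apply, map_sum, ← hZ j t]
    have h1 := hmul (e j) t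
    rw [hrow j] at h1
    have h2 : Y j t = ∑ i, ι (e j i) * Y i t := h1
    rw [h2, Finset.sum_mul]
    refine Finset.sum_congr rfl fun i _ => ?_
    rw [map_mul, ← hZ i t, mul_assoc]
  obtain ⟨p, hp⟩ := lp_exists h Z
  have hpe : p * e = e := by
    have hq : (1 - p) * e = 0 := by
      funext j
      apply hinj
      · have h1 : ((1 - p) * e) * e = (1 - p) * e := by rw [Matrix.mul_assoc, he]
        exact congrFun h1 j
      · have hr : Matrix.vecMul (((1 - p) * e) j) e = ((1 - p) * e) j := by
          have h1 : ((1 - p) * e) * e = (1 - p) * e := by rw [Matrix.mul_assoc, he]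
          exact congrFun h1 j
        have hrZ : ((1 - p) * e) * Z = 0 := by
          rw [Matrix.mul_assoc, heZ, Matrix.sub_mul, Matrix.one_mul, hp.mul, sub_self]
        funext t
        have h2 := hmul (((1 - p) * e) j) t
        rw [hr] at h2
        have h3 : φ (((1 - p) * e) j) t * ι s = 0 := by
          rw [h2, Finset.sum_mul]
          have h4 : ∑ i, ι (((1 - p) * e) j i) * Y i t * ι s = ι ((((1 - p) * e) * Z : Matrix k l R) j t) := by
            rw [Matrix.mul_apply, map_sum]
            refine Finset.sum_congr rfl fun i _ => ?_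
            rw [map_mul, ← hZ i t, mul_assoc]
          rw [h4, hrZ]
          simp
        have hu := hι.unit s hs
        have h5 : φ (((1 - p) * e) j) t * ι s = 0 * ι s := by rw [h3, zero_mul]
        exact hu.mul_left_injective h5
    rw [Matrix.sub_mul, Matrix.one_mul, sub_eq_zero] at hq
    exact hq.symm
  calc Tr τ e = rk τ e := (rk_idem h e he).symm
    _ = rk τ (p * e) := by rw [hpe]
    _ ≤ rk τ p := rk_mul_left h p e
    _ = Tr τ p := rk_idem h p hp.idem
    _ = rk τ Z := (rk_eq Z p hp).symm
    _ ≤ Fintype.card l := (rk_nonneg h Z).2.2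

end Pool.Agent.RK.Embed
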