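import Pool.Agent.RK.Defs2
import Pool.Agent.RK.V3Abs

set_option autoImplicit false

namespace Pool.Agent.RK.EmbedUN

open Pool.Agent.RK
open Matrix

theorem embed_un {R' R U : Type} [Ring R'] [StarRing R'] [Ring R] [Ring U] {τ' : R' →+ ℝ}
    (h : VN R' τ') (j : R' →+* R) (hinj : Function.Injective j)
    (hj : ∀ s, Nz s → Nz (j s)) {ι : R →+* U} (hι : Loc ι) {k β : ℕ}
    (e : Matrix (Fin k) (Fin k) R') (he : e * e = e) (F : Matrix (Fin k) (Fin β) U)
    (hF : ∀ i t, F i t ∈ UN j ι)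
    (hx : ∀ v : Fin k → R', Matrix.vecMul v e = v →
      (∀ t, ∑ i, ι (j (v i)) * F i t = 0) → v = 0) : Tr τ' e ≤ β := by
  refine Pool.Agent.RK.V3Abs.v3_abs h (ι.comp j) (hι.inj.comp hinj)
    (fun s hs => hι.unit (j s) (hj s hs)) e he F ?_ ?_
  · intro i t
    obtain ⟨s, x, hs, hsx⟩ := hF i t
    exact ⟨s, x, hs, hsx⟩
  · intro w hw h0
    refine hx w hw ?_
    intro t
    have := congrFun h0 t
    simpa [Matrix.vecMul, dotProduct] using this

end Pool.Agent.RK.EmbedUN
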