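import Pool.Agent.RK.Defs
import Pool.Agent.RK.OreMat
import Pool.Agent.RK.OreRest

set_option autoImplicit false
open Matrix


namespace Pool.Agent.RK.InvInj
open Pool.Agent.RK
open Pool.Agent.RK.OreMat (ore_mat)
open Pool.Agent.RK.OreRest (ore_mat')

open Matrix




/-! ## TARGET (prove this) -/

/-- A square matrix over `R` with trivial left kernel is invertible over the localisation. -/
theorem inv_of_inj {R U : Type} [Ring R] [StarRing R] [Ring U] {τ : R →+ ℝ} (h : VN R τ)
    {ι : R →+* U} (hι : Loc ι) {n : Type} [Fintype n] [DecidableEq n] (A : Matrix n n R)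
    (hA : ∀ x : n → R, Matrix.vecMul x A = 0 → x = 0) :
    ∃ B : Matrix n n U, A.map ι * B = 1 ∧ B * A.map ι = 1 := by
  choose s c hs hc using fun i : n => ore_mat h A hA (Pi.single i 1)
  choose s' c' hs' hc' using fun i : n => ore_mat' h A hA (Pi.single i 1)
  have hB : (Matrix.of fun i j => (((hι.unit (s i) (hs i)).unit⁻¹ : Uˣ) : U) * ι (c i j)) *
      A.map ι = 1 := by
    ext i k
    rw [Matrix.mul_apply]
    have e1 : ∀ j, (Matrix.of fun i j => (((hι.unit (s i) (hs i)).unit⁻¹ : Uˣ) : U) * ι (c i j)) i j *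
        (A.map ι) j k = (((hι.unit (s i) (hs i)).unit⁻¹ : Uˣ) : U) * ι (c i j * A j k) := by
      intro j
      rw [Matrix.of_apply, Matrix.map_apply, map_mul, mul_assoc]
    rw [Finset.sum_congr rfl fun j _ => e1 j, ← Finset.mul_sum, ← map_sum]
    have e2 : ∑ j, c i j * A j k = s i * (Pi.single i 1 : n → R) k := (congrFun (hc i) k).symm
    rw [e2, map_mul, ← mul_assoc]
    have e3 : (((hι.unit (s i) (hs i)).unit⁻¹ : Uˣ) : U) * ι (s i) = 1 :=
      IsUnit.val_inv_mul (hι.unit (s i) (hs i))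
    rw [e3, one_mul]
    by_cases hik : i = k
    · subst hik
      simp
    · rw [Matrix.one_apply_ne hik, Pi.single_eq_of_ne (Ne.symm hik), map_zero]
  have hC : A.map ι *
      (Matrix.of fun j k => ι (c' k j) * (((hι.unit (s' k) (hs' k)).unit⁻¹ : Uˣ) : U)) = 1 := by
    ext j k
    rw [Matrix.mul_apply]
    have e1 : ∀ l, (A.map ι) j l *
        (Matrix.of fun j k => ι (c' k j) * (((hι.unit (s' k) (hs' k)).unit⁻¹ : Uˣ) : U)) l k =
        ι (A j l * c' k l) * (((hι.unit (s' k) (hs' k)).unit⁻¹ : Uˣ) : U) := by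
      intro l
      rw [Matrix.of_apply, Matrix.map_apply, map_mul, mul_assoc]
    rw [Finset.sum_congr rfl fun l _ => e1 l, ← Finset.sum_mul, ← map_sum]
    have e2 : ∑ l, A j l * c' k l = (Pi.single k 1 : n → R) j * s' k := (congrFun (hc' k) j).symm
    rw [e2, map_mul, mul_assoc]
    have e3 : ι (s' k) * (((hι.unit (s' k) (hs' k)).unit⁻¹ : Uˣ) : U) = 1 :=
      IsUnit.mul_val_inv (hι.unit (s' k) (hs' k))
    rw [e3, mul_one]
    by_cases hjk : j = k
    · subst hjk
      simp
    · rw [Matrix.one_apply_ne hjk, Pi.single_eq_of_ne hjk, map_zero]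
  refine ⟨_, hC, ?_⟩
  have h3 := left_inv_eq_right_inv hB hC
  rw [← h3]
  exact hB

end Pool.Agent.RK.InvInj
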