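import Pool.Agent.Helper831.VN.Defs
import Pool.Agent.Helper655.VNInst
import Pool.Agent.RK.Lp
import Pool.Agent.RK.RkIdem
import Pool.Agent.RK.RkMul

attribute [local instance] VN831.bcFunctor_additive Pool.Agent.Helper655.VN.kerM_hop

set_option autoImplicit false

/-! Sanity check for Lück's extended dimension: the dimension of the finitely generated projective
module `N(G)^k e` is the trace of `e`. -/

open scoped ENNReal

namespace Pool.Agent.RK.Sanity

open Pool.Agent.RK
open Pool.Agent.RK.Lp (lp_exists rk_eq)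
open Pool.Agent.RK.RkIdem (rk_idem)
open Pool.Agent.RK.RkMul (rk_mul_right)
open Pool.Agent.Helper655.VN
open VN831 (rowMod luckDim)
open Matrix

theorem tr_le_of_embed {R : Type} [Ring R] [StarRing R] {τ : R →+ ℝ} (h : VN R τ) {k k' : ℕ}
    (e' : Matrix (Fin k') (Fin k') R) (he' : e' * e' = e')
    (e : Matrix (Fin k) (Fin k) R) (he : e * e = e)
    (f : rowMod e' →ₗ[R] rowMod e) (hf : Function.Injective f) : Tr τ e' ≤ Tr τ e := by
  classical
  have hrow : ∀ w : Fin k' → R, Matrix.vecMul w e' ∈ rowMod e' := by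
    intro w
    show Matrix.vecMul (Matrix.vecMul w e') e' = Matrix.vecMul w e'
    rw [Matrix.vecMul_vecMul, he']
  have hrow' : ∀ i, e' i ∈ rowMod e' := by
    intro i
    show Matrix.vecMul (e' i) e' = e' i
    have h1 := congrFun he' i
    rw [← Matrix.mul_apply_eq_vecMul, h1]
  set X : Matrix (Fin k') (Fin k) R := fun i => (f ⟨e' i, hrow' i⟩ : Fin k → R) with hX
  have hXe : X * e = X := by
    funext i
    rw [Matrix.mul_apply_eq_vecMul]
    exact (f ⟨e' i, hrow' i⟩).2
  have hfX : ∀ w : Fin k' → R,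
      (f ⟨Matrix.vecMul w e', hrow w⟩ : Fin k → R) = Matrix.vecMul w X := by
    intro w
    have h1 : (⟨Matrix.vecMul w e', hrow w⟩ : rowMod e') = ∑ i, w i • ⟨e' i, hrow' i⟩ := by
      apply Subtype.ext
      rw [Submodule.coe_sum]
      simp only [Submodule.coe_smul]
      rw [Matrix.vecMul_eq_sum]
    rw [h1, map_sum, Submodule.coe_sum, Matrix.vecMul_eq_sum]
    refine Finset.sum_congr rfl fun i _ => ?_
    rw [map_smul, Submodule.coe_smul]
  have hker : ∀ w : Fin k' → R, Matrix.vecMul w X = 0 → Matrix.vecMul w e' = 0 := by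
    intro w hw
    rw [← hfX w] at hw
    have h1 : f ⟨Matrix.vecMul w e', hrow w⟩ = 0 := Subtype.ext hw
    have h2 := hf (h1.trans (map_zero f).symm)
    exact congrArg Subtype.val h2
  have heX : e' * X = X := by
    funext i
    rw [Matrix.mul_apply_eq_vecMul, ← hfX (e' i)]
    have h1 : (⟨Matrix.vecMul (e' i) e', hrow (e' i)⟩ : rowMod e') = ⟨e' i, hrow' i⟩ :=
      Subtype.ext (hrow' i)
    rw [h1]
  obtain ⟨p, hp⟩ := lp_exists h e'
  have hpX : IsLP X p := by
    refine ⟨hp.idem, hp.star, ?_, ?_⟩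
    · rw [← heX, ← Matrix.mul_assoc, hp.mul]
    · intro x hx
      exact hp.min x (hker x hx)
  rw [← rk_idem h e' he', ← rk_idem h e he, rk_eq e' p hp, ← rk_eq X p hpX, ← hXe]
  exact rk_mul_right h X e

/-- The dimension of the module `N(G)^k e` is the trace of `e`. -/
theorem luckDim_rowMod {G : Type} [Group G] {k : ℕ} (e : Matrix (Fin k) (Fin k) (NG G))
    (he : e * e = e) :
    luckDim G (rowMod e) = ENNReal.ofReal (∑ i, (tr (e i i)).re) := by
  apply le_antisymm
  · unfold luckDim
    refine iSup_le fun k' => iSup_le fun e' => iSup_le fun he' => iSup_le fun hf => ?_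
    obtain ⟨f, hf⟩ := hf
    exact ENNReal.ofReal_le_ofReal (tr_le_of_embed vn_NG e' he' e he f hf)
  · unfold luckDim
    exact le_iSup_of_le k (le_iSup_of_le e (le_iSup_of_le he (le_iSup_of_le
      ⟨LinearMap.id, Function.injective_id⟩ le_rfl)))

end Pool.Agent.RK.Sanity
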